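import Pool.Agent.Helper17.PP2.Goals
import Pool.Agent.Helper59.PP.CSM2

/-! PROJECT PP, stage 3 (R), packet R_SM5. -/

namespace Pool.Agent.Helper36.PP2

open Finset Filter Topology Pool.Agent.Helper17.PP Pool.Agent.Helper59.PP

theorem term_le {δ : ℝ} (hδ0 : 0 < δ) (hδ1 : δ ≤ 1) {L j : ℕ} (hL : 2 ≤ L) (hj : 1 ≤ j) :
    (j : ℝ)⁻¹ * ((max 1 (L - (j + 1)) : ℕ) : ℝ) ^ (-δ) ≤
      (((L - 1 : ℕ) : ℝ) / 2) ^ (-(δ / 2)) * ((j : ℝ) ^ (-(1 + δ / 2)) +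
        ((max 1 ((L - 1) - j) : ℕ) : ℝ) ^ (-(1 + δ / 2))) := by
  have e : L - (j + 1) = (L - 1) - j := by omega
  rw [e]
  refine split_xy ?_ ?_ ?_ ?_ hδ0 hδ1
  · exact_mod_cast hj
  · exact_mod_cast le_max_left _ _
  · have : 0 < L - 1 := by omega
    exact_mod_cast this
  · have : L - 1 ≤ j + max 1 (L - 1 - j) := by omega
    exact_mod_cast this

theorem r_sm5 : Pool.Agent.Helper17.PP2.R_SM5 := by
  intro K K' A T₀ ε hK hε
  have hKr : (1 : ℝ) ≤ K := by exact_mod_cast hK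
  set δ : ℝ := 1 / (2 * K) with hδ
  have hδ0 : 0 < δ := by positivity
  have hδ1 : δ ≤ 1 := by
    rw [hδ, div_le_one (by positivity)]
    linarith
  obtain ⟨C, hC1, hC⟩ := a_le A K' (η := δ / 4) (by positivity)
  set D : ℝ := ((T₀ : ℝ) + 1) ^ K' * C with hD
  have hD0 : 0 < D := by positivity
  -- the bound of the numerator
  have ha : ∀ L : ℕ, 1 ≤ L → (((ti A L + T₀ : ℕ) : ℝ) + 2) ^ K' ≤ D * (L : ℝ) ^ (δ / 4) := by
    intro L hL
    have h1 : (((ti A L + T₀ : ℕ) : ℝ) + 2) ≤ ((T₀ : ℝ) + 1) * ((ti A L : ℝ) + 2) := by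
      push_cast
      have : (0 : ℝ) ≤ (ti A L : ℝ) * T₀ := by positivity
      nlinarith [Nat.cast_nonneg (α := ℝ) T₀]
    calc (((ti A L + T₀ : ℕ) : ℝ) + 2) ^ K' ≤ (((T₀ : ℝ) + 1) * ((ti A L : ℝ) + 2)) ^ K' :=
          pow_le_pow_left₀ (by positivity) h1 _
      _ = ((T₀ : ℝ) + 1) ^ K' * ((ti A L : ℝ) + 2) ^ K' := mul_pow _ _ _
      _ ≤ ((T₀ : ℝ) + 1) ^ K' * (C * (L : ℝ) ^ (δ / 4)) :=
          mul_le_mul_of_nonneg_left (hC L hL) (by positivity)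
      _ = _ := by rw [hD]; ring
  set γ : ℝ := 1 + δ / 2 with hγ
  have hsγ : Summable fun i : ℕ => (i : ℝ) ^ (-γ) := Real.summable_nat_rpow.2 (by linarith)
  have hnn : ∀ i : ℕ, (0 : ℝ) ≤ (i : ℝ) ^ (-γ) := fun i => Real.rpow_nonneg (by positivity) _
  set Z : ℝ := ∑' i : ℕ, (i : ℝ) ^ (-γ) with hZ
  have hZ0 : 0 ≤ Z := tsum_nonneg hnn
  set C₂ : ℝ := D * (4 ^ (δ / 2) * (2 * Z + 3)) + 2 * D with hC₂
  have hC₂0 : 0 ≤ C₂ := by positivity
  have hlim : Tendsto (fun L : ℕ => C₂ * (L : ℝ) ^ (-(δ / 4))) atTop (𝓝 0) := by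
    have h1 : Tendsto (fun x : ℝ => x ^ (-(δ / 4))) atTop (𝓝 0) :=
      tendsto_rpow_neg_atTop (by positivity)
    have h2 := (h1.comp tendsto_natCast_atTop_atTop).const_mul C₂
    rw [mul_zero] at h2
    exact h2
  obtain ⟨L₁, hL₁⟩ := eventually_atTop.1 (hlim.eventually (gt_mem_nhds hε))
  refine ⟨max 2 L₁, fun L hL J => ?_⟩
  have hL2 : 2 ≤ L := le_trans (le_max_left _ _) hL
  have hfin := hL₁ L (le_trans (le_max_right _ _) hL)
  refine le_trans ?_ hfin.le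
  have hL1 : 1 ≤ L := by omega
  have hL1r : (1 : ℝ) ≤ L := by exact_mod_cast hL1
  have hL0r : (0 : ℝ) < L := by linarith
  have hs1 : 1 ≤ Nat.sqrt L := by rw [Nat.le_sqrt]; omega
  set a : ℝ := (((ti A L + T₀ : ℕ) : ℝ) + 2) ^ K' with hadef
  have ha0 : 0 ≤ a := by positivity
  have haL := ha L hL1
  rw [← Finset.sum_filter_add_sum_filter_not (Ico (Nat.sqrt L) J) (fun j => j ≤ L + 1)]
  -- the part up to `L + 1`
  have q1 : ∑ j ∈ (Ico (Nat.sqrt L) J).filter (fun j => j ≤ L + 1),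
      a / j * min 1 (2 ^ (L + 1) / 2 ^ j) *
      ((max 1 (L - (j + 1)) : ℕ) : ℝ) ^ (-δ) ≤
      D * (4 ^ (δ / 2) * (2 * Z + 3)) * (L : ℝ) ^ (-(δ / 4)) := by
    have r1 : ∀ j ∈ (Ico (Nat.sqrt L) J).filter (fun j => j ≤ L + 1),
        a / j * min 1 (2 ^ (L + 1) / 2 ^ j) *
        ((max 1 (L - (j + 1)) : ℕ) : ℝ) ^ (-δ) ≤
        a * (((L - 1 : ℕ) : ℝ) / 2) ^ (-(δ / 2)) * ((j : ℝ) ^ (-γ) +
          ((max 1 ((L - 1) - j) : ℕ) : ℝ) ^ (-γ)) := by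
      intro j hj
      rw [Finset.mem_filter, Finset.mem_Ico] at hj
      have hj1 : 1 ≤ j := by omega
      have ht := term_le hδ0 hδ1 hL2 hj1
      have hp : (0 : ℝ) ≤ ((max 1 (L - (j + 1)) : ℕ) : ℝ) ^ (-δ) :=
        Real.rpow_nonneg (by positivity) _
      have hw1 : min 1 ((2 : ℝ) ^ (L + 1) / 2 ^ j) ≤ 1 := min_le_left _ _
      calc a / j * min 1 (2 ^ (L + 1) / 2 ^ j) * ((max 1 (L - (j + 1)) : ℕ) : ℝ) ^ (-δ)
          ≤ a / j * 1 * ((max 1 (L - (j + 1)) : ℕ) : ℝ) ^ (-δ) :=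
            mul_le_mul_of_nonneg_right (mul_le_mul_of_nonneg_left hw1 (by positivity)) hp
        _ = a * ((j : ℝ)⁻¹ * ((max 1 (L - (j + 1)) : ℕ) : ℝ) ^ (-δ)) := by
            rw [mul_one, div_eq_mul_inv, mul_assoc]
        _ ≤ _ := by
            rw [mul_assoc a]
            exact mul_le_mul_of_nonneg_left ht ha0
    refine (Finset.sum_le_sum r1).trans ?_
    rw [← Finset.mul_sum, Finset.sum_add_distrib]
    have r2 : ∑ j ∈ (Ico (Nat.sqrt L) J).filter (fun j => j ≤ L + 1), (j : ℝ) ^ (-γ) ≤ Z := by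
      rw [hZ]
      exact sum_comp_le hsγ hnn _ (fun j => j) (fun a _ b _ h => h)
    have r3 : ∑ j ∈ (Ico (Nat.sqrt L) J).filter (fun j => j ≤ L + 1),
        ((max 1 ((L - 1) - j) : ℕ) : ℝ) ^ (-γ) ≤ Z + 3 := by
      refine (sum_y (by linarith) (L - 1) L _ fun j hj => (Finset.mem_filter.1 hj).2).trans ?_
      rw [← hZ]
      refine add_le_add le_rfl ?_
      have : L + 2 - (L - 1) = 3 := by omega
      rw [this]; norm_num
    have r6 : (((L - 1 : ℕ) : ℝ) / 2) ^ (-(δ / 2)) ≤ 4 ^ (δ / 2) * (L : ℝ) ^ (-(δ / 2)) := by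
      have h1 : (L : ℝ) / 4 ≤ ((L - 1 : ℕ) : ℝ) / 2 := by
        have h2 : L ≤ 2 * (L - 1) := by omega
        have h3 : (L : ℝ) ≤ 2 * ((L - 1 : ℕ) : ℝ) := by exact_mod_cast h2
        linarith
      have h2 : (((L - 1 : ℕ) : ℝ) / 2) ^ (-(δ / 2)) ≤ ((L : ℝ) / 4) ^ (-(δ / 2)) :=
        Real.rpow_le_rpow_of_nonpos (by positivity) h1 (by linarith)
      refine h2.trans (le_of_eq ?_)
      rw [Real.div_rpow hL0r.le (by norm_num), Real.rpow_neg (by norm_num : (0 : ℝ) ≤ 4),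
        div_inv_eq_mul, mul_comm]
    have hXp : 0 < (L : ℝ) ^ (δ / 4) := Real.rpow_pos_of_pos hL0r _
    have hXq : 0 < (L : ℝ) ^ (-(δ / 2)) := Real.rpow_pos_of_pos hL0r _
    have hM0 : 0 ≤ (((L - 1 : ℕ) : ℝ) / 2) ^ (-(δ / 2)) := Real.rpow_nonneg (by positivity) _
    calc a * (((L - 1 : ℕ) : ℝ) / 2) ^ (-(δ / 2)) *
          (∑ j ∈ (Ico (Nat.sqrt L) J).filter (fun j => j ≤ L + 1), (j : ℝ) ^ (-γ) +
            ∑ j ∈ (Ico (Nat.sqrt L) J).filter (fun j => j ≤ L + 1),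
              ((max 1 ((L - 1) - j) : ℕ) : ℝ) ^ (-γ))
        ≤ D * (L : ℝ) ^ (δ / 4) * (4 ^ (δ / 2) * (L : ℝ) ^ (-(δ / 2))) * (Z + (Z + 3)) := by
          refine mul_le_mul (mul_le_mul haL r6 hM0 (by positivity)) (add_le_add r2 r3) ?_
            (by positivity)
          exact add_nonneg (Finset.sum_nonneg fun j _ => hnn j)
            (Finset.sum_nonneg fun j _ => Real.rpow_nonneg (by positivity) _)
      _ = D * (4 ^ (δ / 2) * (2 * Z + 3)) * ((L : ℝ) ^ (δ / 4) * (L : ℝ) ^ (-(δ / 2))) := by ring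
      _ = _ := by
          rw [← Real.rpow_add hL0r]
          congr 2
          ring
  -- the part above `L + 1`
  have q2 : ∑ j ∈ (Ico (Nat.sqrt L) J).filter (fun j => ¬ j ≤ L + 1),
      a / j * min 1 (2 ^ (L + 1) / 2 ^ j) *
      ((max 1 (L - (j + 1)) : ℕ) : ℝ) ^ (-δ) ≤ 2 * D * (L : ℝ) ^ (-(δ / 4)) := by
    have r1 : ∀ j ∈ (Ico (Nat.sqrt L) J).filter (fun j => ¬ j ≤ L + 1),
        a / j * min 1 (2 ^ (L + 1) / 2 ^ j) *
        ((max 1 (L - (j + 1)) : ℕ) : ℝ) ^ (-δ) ≤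
        (D * (L : ℝ) ^ (-(δ / 4))) * (1 / 2 : ℝ) ^ (j - (L + 1)) := by
      intro j hj
      rw [Finset.mem_filter] at hj
      have hjL : L + 1 < j := by omega
      have hjX : (L : ℝ) ≤ j := by exact_mod_cast (by omega : L ≤ j)
      have haC : a / j ≤ D * (L : ℝ) ^ (-(δ / 4)) := by
        have h1 : a / j ≤ D * (L : ℝ) ^ (δ / 4) / L :=
          div_le_div₀ (by positivity) haL hL0r hjX
        have h2 : D * (L : ℝ) ^ (δ / 4) / L = D * (L : ℝ) ^ (-(1 - δ / 4)) := by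
          rw [mul_div_assoc]
          congr 1
          rw [div_eq_mul_inv, ← Real.rpow_neg_one, ← Real.rpow_add hL0r]
          congr 1; ring
        rw [h2] at h1
        refine h1.trans (mul_le_mul_of_nonneg_left ?_ hD0.le)
        exact Real.rpow_le_rpow_of_exponent_le hL1r (by linarith)
      have hw : min 1 ((2 : ℝ) ^ (L + 1) / 2 ^ j) ≤ (1 / 2 : ℝ) ^ (j - (L + 1)) := by
        refine (min_le_right _ _).trans (le_of_eq ?_)
        obtain ⟨m, rfl⟩ : ∃ m, j = L + 1 + m := ⟨j - (L + 1), by omega⟩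
        rw [Nat.add_sub_cancel_left, one_div, inv_pow]
        field_simp
        ring
      have hw0 : 0 ≤ min 1 ((2 : ℝ) ^ (L + 1) / 2 ^ j) := by positivity
      have hn1 : ((max 1 (L - (j + 1)) : ℕ) : ℝ) ^ (-δ) ≤ 1 := by
        refine Real.rpow_le_one_of_one_le_of_nonpos ?_ (by linarith)
        exact_mod_cast le_max_left _ _
      have hn0 : 0 ≤ ((max 1 (L - (j + 1)) : ℕ) : ℝ) ^ (-δ) :=
        Real.rpow_nonneg (by positivity) _
      have hXp : 0 < (L : ℝ) ^ (-(δ / 4)) := Real.rpow_pos_of_pos hL0r _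
      calc a / j * min 1 (2 ^ (L + 1) / 2 ^ j) * ((max 1 (L - (j + 1)) : ℕ) : ℝ) ^ (-δ)
          ≤ (D * (L : ℝ) ^ (-(δ / 4))) * (1 / 2 : ℝ) ^ (j - (L + 1)) * 1 :=
            mul_le_mul (mul_le_mul haC hw hw0 (by positivity)) hn1 hn0 (by positivity)
        _ = _ := mul_one _
    refine (Finset.sum_le_sum r1).trans ?_
    rw [← Finset.mul_sum]
    have hg : ∑ j ∈ (Ico (Nat.sqrt L) J).filter (fun j => ¬ j ≤ L + 1), (1 / 2 : ℝ) ^ (j - (L + 1)) ≤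
        ∑' i : ℕ, (1 / 2 : ℝ) ^ i := by
      refine sum_comp_le summable_geometric_two (fun i => by positivity) _
        (fun j => j - (L + 1)) ?_
      intro a ha b hb hab
      have h2 := (Finset.mem_filter.1 (Finset.mem_coe.1 ha)).2
      have h3 := (Finset.mem_filter.1 (Finset.mem_coe.1 hb)).2
      have h4 : a - (L + 1) = b - (L + 1) := hab
      omega
    rw [tsum_geometric_two] at hg
    have hXp : 0 < (L : ℝ) ^ (-(δ / 4)) := Real.rpow_pos_of_pos hL0r _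
    calc D * (L : ℝ) ^ (-(δ / 4)) * ∑ j ∈ (Ico (Nat.sqrt L) J).filter (fun j => ¬ j ≤ L + 1),
          (1 / 2 : ℝ) ^ (j - (L + 1)) ≤ D * (L : ℝ) ^ (-(δ / 4)) * 2 :=
          mul_le_mul_of_nonneg_left hg (by positivity)
      _ = 2 * D * (L : ℝ) ^ (-(δ / 4)) := by ring
  refine (add_le_add q1 q2).trans (le_of_eq ?_)
  rw [hC₂]; ring

end Pool.Agent.Helper36.PP2
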