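import Pool.Agent.Helper17.PP2.Goals
import Pool.Agent.Helper47.PP.CSM4

/-! PROJECT PP, stage 3 (R), packet R_SM6. -/

namespace Pool.Agent.Helper36.PP2

open Finset Filter Topology Pool.Agent.Helper17.PP Pool.Agent.Helper47.PP

theorem half_pow_log_le {L : ℕ} (hL : 1 ≤ L) : ((1 : ℝ) / 2) ^ Nat.log 2 L ≤ 2 / L := by
  have h : L < 2 ^ (Nat.log 2 L + 1) := Nat.lt_pow_succ_log_self (by norm_num) L
  have h' : (L : ℝ) ≤ 2 ^ (Nat.log 2 L + 1) := by exact_mod_cast h.le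
  have hL0 : (0 : ℝ) < L := by exact_mod_cast hL
  rw [one_div, inv_pow, inv_le_comm₀ (by positivity) (by positivity), inv_div, div_le_iff₀ (by norm_num)]
  rw [pow_succ] at h'
  exact h'

/-- the single sum -/
theorem single_sum (K : ℕ) {r : ℝ} (hr0 : 0 ≤ r) (hr1 : r < 1) (hrpos : 0 < r) :
    ∃ C : ℝ, 0 ≤ C ∧ ∀ L J : ℕ, ∑ i ∈ range J, ((i : ℝ) + 1) ^ K * r ^ (i - (L + 1)) ≤
      ((L : ℝ) + 2) ^ (K + 1) * (1 + C) := by
  have hsum : Summable fun m : ℕ => ((m : ℝ) + 1) ^ K * r ^ m := by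
    have h1 : Summable fun n : ℕ => ((n : ℝ)) ^ K * r ^ n :=
      summable_pow_mul_geometric_of_norm_lt_one K (by rw [Real.norm_of_nonneg hr0]; exact hr1)
    have h2 := (summable_nat_add_iff 1).2 h1
    refine (h2.mul_right r⁻¹).congr fun n => ?_
    push_cast
    rw [pow_succ]
    field_simp
  have hterm : ∀ m : ℕ, 0 ≤ ((m : ℝ) + 1) ^ K * r ^ m := fun m => by positivity
  refine ⟨∑' m : ℕ, ((m : ℝ) + 1) ^ K * r ^ m, tsum_nonneg hterm, ?_⟩
  set C : ℝ := ∑' m : ℕ, ((m : ℝ) + 1) ^ K * r ^ m with hC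
  have hC0 : 0 ≤ C := tsum_nonneg hterm
  intro L J
  have h1 : ∀ i ∈ range J, ((i : ℝ) + 1) ^ K * r ^ (i - (L + 1)) ≤
      ((L : ℝ) + 2) ^ K * ((((i - (L + 1) : ℕ) : ℝ) + 1) ^ K * r ^ (i - (L + 1))) := by
    intro i _
    rw [← mul_assoc, ← mul_pow]
    refine mul_le_mul_of_nonneg_right (pow_le_pow_left₀ (by positivity) ?_ K) (by positivity)
    have h3 : i + 1 ≤ (L + 2) * (i - (L + 1) + 1) := by
      rcases le_or_gt i (L + 1) with h | h
      · rw [Nat.sub_eq_zero_of_le h]; omega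
      · obtain ⟨m, rfl⟩ : ∃ m, i = L + 1 + m := ⟨i - (L + 1), by omega⟩
        rw [Nat.add_sub_cancel_left]
        nlinarith
    have h4 : ((i + 1 : ℕ) : ℝ) ≤ (((L + 2) * (i - (L + 1) + 1) : ℕ) : ℝ) := by exact_mod_cast h3
    push_cast at h4
    exact_mod_cast h4
  refine (sum_le_sum h1).trans ?_
  rw [← mul_sum]
  have h2 := sum_shift (fun m => ((m : ℝ) + 1) ^ K * r ^ m) hterm (L + 1) J
  have h3 : ∑ m ∈ range J, ((m : ℝ) + 1) ^ K * r ^ m ≤ C :=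
    hsum.sum_le_tsum _ fun m _ => hterm m
  have h4 : ∑ i ∈ range J, (((i - (L + 1) : ℕ) : ℝ) + 1) ^ K * r ^ (i - (L + 1)) ≤
      ((L : ℝ) + 2) * (1 + C) := by
    have hL : (0 : ℝ) ≤ L := Nat.cast_nonneg L
    simp only [Nat.cast_zero, zero_add, one_pow, pow_zero, mul_one] at h2
    push_cast at h2 ⊢
    nlinarith [mul_nonneg hL hC0]
  rw [pow_succ, mul_assoc]
  exact mul_le_mul_of_nonneg_left h4 (by positivity)

theorem r_sm6 : Pool.Agent.Helper17.PP2.R_SM6 := by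
  intro K K' hK
  set r : ℝ := Real.sqrt (1 / 2) with hr
  have hr2 : r ^ 2 = 1 / 2 := Real.sq_sqrt (by norm_num)
  have hr0 : 0 ≤ r := Real.sqrt_nonneg _
  have hr1 : r < 1 := by nlinarith
  have hrpos : 0 < r := by
    rcases hr0.lt_or_eq with h | h
    · exact h
    · rw [← h] at hr2; norm_num at hr2
  obtain ⟨C, hC0, hS⟩ := single_sum K hr0 hr1 hrpos
  set q : ℝ := (2 : ℝ) ^ (-(1 : ℝ) / K) with hq
  have hKr : (0 : ℝ) < K := by exact_mod_cast hK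
  have hq0 : 0 < q := Real.rpow_pos_of_pos (by norm_num) _
  have hq1 : q < 1 := Real.rpow_lt_one_of_one_lt_of_neg (by norm_num)
    (div_neg_of_neg_of_pos (by norm_num) hKr)
  have hqK : q ^ K = 1 / 2 := by
    rw [hq, ← Real.rpow_natCast, ← Real.rpow_mul (by norm_num), div_mul_cancel₀ _ hKr.ne',
      Real.rpow_neg_one]
    norm_num
  set E : ℕ := K' + 2 * (K + 1) with hE
  refine ⟨K * (E + 1), fun ε hε => ?_⟩
  obtain ⟨n₀, hn₀⟩ := exists_nat_ge (6 ^ E * 2 * (1 + C) ^ 2 / ε)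
  refine ⟨max 1 n₀, fun L hL T hT J => ?_⟩
  have hL1 : 1 ≤ L := le_trans (le_max_left _ _) hL
  have hL1r : (1 : ℝ) ≤ L := by exact_mod_cast hL1
  have hLn : (n₀ : ℝ) ≤ L := by exact_mod_cast le_trans (le_max_right _ _) hL
  have hqT : q ^ T ≤ (2 / (L : ℝ)) ^ (E + 1) := by
    refine (pow_le_pow_of_le_one hq0.le hq1.le hT).trans ?_
    unfold ti
    rw [mul_assoc, pow_mul, hqK, mul_comm, pow_mul]
    exact pow_le_pow_left₀ (by positivity) (half_pow_log_le hL1) _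
  have hbound : ∀ i ∈ Ico T J, ∀ j ∈ Ico T J,
      ((L : ℝ) + 2) ^ K' * ((i : ℝ) + j) ^ K * (2 : ℝ) ^ (-(min i j : ℝ) / K) *
        min 1 (2 ^ (L + 1) / 2 ^ (i + j)) ≤
      ((L : ℝ) + 2) ^ K' * q ^ T * ((((i : ℝ) + 1) ^ K * r ^ (i - (L + 1))) *
        (((j : ℝ) + 1) ^ K * r ^ (j - (L + 1)))) := by
    intro i hi j hj
    rw [mem_Ico] at hi hj
    have h1 : (2 : ℝ) ^ (-(min i j : ℝ) / K) ≤ q ^ T := by
      rw [hq, ← Real.rpow_natCast, ← Real.rpow_mul (by norm_num)]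
      refine Real.rpow_le_rpow_of_exponent_le (by norm_num) ?_
      have h2 : (T : ℝ) ≤ min (i : ℝ) (j : ℝ) := by
        refine le_min ?_ ?_
        · exact_mod_cast hi.1
        · exact_mod_cast hj.1
      rw [div_mul_eq_mul_div, neg_one_mul]
      exact div_le_div_of_nonneg_right (neg_le_neg h2) hKr.le
    have h2 := min_bound hr0 hr1.le hr2 L i j
    have h3 : ((i : ℝ) + j) ^ K ≤ ((i : ℝ) + 1) ^ K * ((j : ℝ) + 1) ^ K := by
      rw [← mul_pow]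
      refine pow_le_pow_left₀ (by positivity) ?_ K
      have hi0 : (0 : ℝ) ≤ i := Nat.cast_nonneg i
      have hj0 : (0 : ℝ) ≤ j := Nat.cast_nonneg j
      nlinarith [mul_nonneg hi0 hj0]
    have hm0 : (0 : ℝ) ≤ min 1 ((2 : ℝ) ^ (L + 1) / 2 ^ (i + j)) := by positivity
    calc ((L : ℝ) + 2) ^ K' * ((i : ℝ) + j) ^ K * (2 : ℝ) ^ (-(min i j : ℝ) / K) *
          min 1 (2 ^ (L + 1) / 2 ^ (i + j))
        ≤ ((L : ℝ) + 2) ^ K' * (((i : ℝ) + 1) ^ K * ((j : ℝ) + 1) ^ K) * q ^ T *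
          (r ^ (i - (L + 1)) * r ^ (j - (L + 1))) := by
          refine mul_le_mul (mul_le_mul (mul_le_mul_of_nonneg_left h3 (by positivity)) h1
            (by positivity) (by positivity)) h2 hm0 (by positivity)
      _ = _ := by ring
  refine (sum_le_sum fun i hi => sum_le_sum fun j hj => hbound i hi j hj).trans ?_
  have hfac : ∑ i ∈ Ico T J, ∑ j ∈ Ico T J, ((L : ℝ) + 2) ^ K' * q ^ T *
      ((((i : ℝ) + 1) ^ K * r ^ (i - (L + 1))) * (((j : ℝ) + 1) ^ K * r ^ (j - (L + 1)))) =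
      ((L : ℝ) + 2) ^ K' * q ^ T * ((∑ i ∈ Ico T J, ((i : ℝ) + 1) ^ K * r ^ (i - (L + 1))) *
        ∑ j ∈ Ico T J, ((j : ℝ) + 1) ^ K * r ^ (j - (L + 1))) := by
    rw [sum_mul_sum, mul_sum]
    refine sum_congr rfl fun i _ => ?_
    rw [mul_sum]
  rw [hfac]
  have hA : ∑ i ∈ Ico T J, ((i : ℝ) + 1) ^ K * r ^ (i - (L + 1)) ≤
      ((L : ℝ) + 2) ^ (K + 1) * (1 + C) := by
    refine le_trans ?_ (hS L J)
    exact sum_le_sum_of_subset_of_nonneg
      (fun i hi => by rw [mem_Ico] at hi; exact mem_range.2 hi.2) fun i _ _ => by positivity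
  have hA0 : 0 ≤ ∑ i ∈ Ico T J, ((i : ℝ) + 1) ^ K * r ^ (i - (L + 1)) :=
    sum_nonneg fun i _ => by positivity
  have h5 := mul_le_mul hA hA hA0 (by positivity : (0:ℝ) ≤ ((L : ℝ) + 2) ^ (K + 1) * (1 + C))
  have h6 : (((L : ℝ) + 2) * (2 / L)) ^ E ≤ 6 ^ E := by
    refine pow_le_pow_left₀ (by positivity) ?_ _
    rw [mul_div_assoc', div_le_iff₀ (by linarith)]
    linarith
  calc ((L : ℝ) + 2) ^ K' * q ^ T * ((∑ i ∈ Ico T J, ((i : ℝ) + 1) ^ K * r ^ (i - (L + 1))) *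
        ∑ j ∈ Ico T J, ((j : ℝ) + 1) ^ K * r ^ (j - (L + 1)))
      ≤ ((L : ℝ) + 2) ^ K' * (2 / (L : ℝ)) ^ (E + 1) * ((((L : ℝ) + 2) ^ (K + 1) * (1 + C)) *
        (((L : ℝ) + 2) ^ (K + 1) * (1 + C))) := by
        refine mul_le_mul (mul_le_mul_of_nonneg_left hqT (by positivity)) h5
          (mul_nonneg hA0 hA0) (by positivity)
    _ = (((L : ℝ) + 2) * (2 / L)) ^ E * ((1 + C) ^ 2 * 2 / L) := by
        have hx : ((L : ℝ) + 2) ^ E = ((L : ℝ) + 2) ^ K' * (((L : ℝ) + 2) ^ (K + 1) *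
            ((L : ℝ) + 2) ^ (K + 1)) := by
          rw [hE, ← pow_add, ← pow_add]
          congr 1
          ring
        rw [mul_pow, pow_succ, hx]
        generalize ((L : ℝ) + 2) ^ (K + 1) = u
        generalize (2 / (L : ℝ)) ^ E = v
        ring
    _ ≤ 6 ^ E * ((1 + C) ^ 2 * 2 / L) := mul_le_mul_of_nonneg_right h6 (by positivity)
    _ ≤ ε := by
        rw [div_le_iff₀ hε] at hn₀
        rw [mul_div_assoc', div_le_iff₀ (by linarith)]
        have := mul_le_mul_of_nonneg_right hLn hε.le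
        linarith

end Pool.Agent.Helper36.PP2
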